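import Pool.Agent.R130.BraidWords

/-!
# MP_e319d1_co, Q1: braid graphs in simply-laced Coxeter systems are median graphs
-/

set_option autoImplicit false

namespace Pool.Agent.Results.MP_e319d1_co.Median

open Pool.Agent.R130.Braid Pool.Agent.R130.Puzzle

/-- A connected graph is a median graph if for every three vertices `u, v, w` there is exactly one
vertex that lies on a shortest path between each of the pairs `{u,v}`, `{v,w}`, `{u,w}`. -/
def IsMedianGraph {V : Type*} (H : SimpleGraph V) : Prop :=
  H.Connected ∧ ∀ u v w : V, ∃! μ : V,
    H.dist u μ + H.dist μ v = H.dist u v ∧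
    H.dist v μ + H.dist μ w = H.dist v w ∧
    H.dist u μ + H.dist μ w = H.dist u w

/-- **Every braid graph of a reduced word in a simply-laced Coxeter system is a median graph.** -/
theorem result {B W : Type*} {M : CoxeterMatrix B} [Group W] (cs : CoxeterSystem M W)
    (hsl : SimplyLaced M) (α : List B) (hα : cs.IsReduced α) :
    IsMedianGraph (braidGraph M α) := by
  set f := iso (cs := cs) hsl hα
  have hc' : (G (puz cs α hα)).Connected := connected
  have hc : (braidGraph M α).Connected := (f.connected_iff).mpr hc'
  refine ⟨hc, fun u v w => ?_⟩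
  obtain ⟨μ, h1, h2⟩ := median (f u) (f v) (f w)
  obtain ⟨μ', rfl⟩ := f.surjective μ
  refine ⟨μ', ?_, ?_⟩
  · simp only [dist_iso f hc] at h1
    exact h1
  · intro ν hν
    apply f.injective
    apply h2
    simp only [dist_iso f hc]
    exact hν

end Pool.Agent.Results.MP_e319d1_co.Median
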